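import Pool.Agent.Lib.MP_715eb0_an.AlmostAll

/-!
# Almost all finitely supported ergodic `×(2,3)`-invariant measures are close to Lebesgue measure
-/

open MeasureTheory Filter Finset
open scoped Topology

namespace Pool.Agent.Results.MP_715eb0_an.AlmostAllMeasures

open Pool.Agent.Lib.MP_715eb0_an

/-- The admissible measures with exactly `N` atoms and with an atom whose order lies in `Q`. -/
def Fam (N : ℕ) (Q : Set ℕ) : Set (Measure T) :=
  {μ | Erg μ ∧ atoms μ = N ∧ ∃ x : T, μ {x} ≠ 0 ∧ addOrderOf x ∈ Q}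

open Classical in
/-- Points whose orbit has `N` elements and whose order lies in `Q`. -/
noncomputable def YQ (N : ℕ) (Q : Set ℕ) : Finset T :=
  ((range (2 ^ N)).filter (fun q => q ∈ Q ∧ q.Coprime 6 ∧ cnt q = N)).biUnion X

lemma mem_YQ {N : ℕ} {Q : Set ℕ} {x : T} :
    x ∈ YQ N Q ↔ addOrderOf x ∈ Q ∧ (addOrderOf x).Coprime 6 ∧ cnt (addOrderOf x) = N := by
  classical
  simp only [YQ, mem_biUnion, mem_filter, mem_range]
  constructor
  · rintro ⟨q, ⟨_, hQ, hq, hc⟩, hx⟩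
    rw [mem_X (pos_of_coprime hq)] at hx
    rw [hx]
    exact ⟨hQ, hq, hc⟩
  · rintro ⟨hQ, hq, hc⟩
    refine ⟨addOrderOf x, ⟨?_, hQ, hq, hc⟩, (mem_X (pos_of_coprime hq) x).mpr rfl⟩
    rw [← hc]
    exact lt_two_pow_cnt hq

lemma YQ_prop {N : ℕ} {Q : Set ℕ} :
    ∀ x ∈ YQ N Q, (addOrderOf x).Coprime 6 ∧ cnt (addOrderOf x) = N ∧ ∀ y ∈ Orb x, y ∈ YQ N Q := by
  intro x hx
  obtain ⟨h0, h1, h2⟩ := mem_YQ.mp hx
  refine ⟨h1, h2, fun y hy => mem_YQ.mpr ?_⟩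
  rw [order_of_mem_Orb h1 hy]
  exact ⟨h0, h1, h2⟩

lemma YQ_moment (N : ℕ) (Q : Set ℕ) {k : ℤ} (hk : k ≠ 0) :
    ∑ x ∈ YQ N Q, ‖∫ y, fourier k y ∂(U (Orb x))‖ ^ 2 ≤
      (YQ N Q).card * (|(k : ℝ)| * Real.sqrt (2 * N + 1) / N) := by
  classical
  have hdis : ((((range (2 ^ N)).filter (fun q => q ∈ Q ∧ q.Coprime 6 ∧ cnt q = N)) : Finset ℕ) :
      Set ℕ).PairwiseDisjoint X := by
    intro a ha b hb hab
    rw [Function.onFun, Finset.disjoint_left]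
    intro x hx hx'
    have ha' := (mem_filter.mp (Finset.mem_coe.mp ha)).2.2.1
    have hb' := (mem_filter.mp (Finset.mem_coe.mp hb)).2.2.1
    rw [mem_X (pos_of_coprime ha')] at hx
    rw [mem_X (pos_of_coprime hb')] at hx'
    exact hab (hx.symm.trans hx')
  rw [YQ, sum_biUnion hdis, card_biUnion hdis]
  push_cast
  rw [sum_mul]
  refine sum_le_sum (fun q hq => ?_)
  obtain ⟨_, _, hq6, hqc⟩ := mem_filter.mp hq
  have := moment_X hq6 hk
  rw [hqc] at this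
  exact this

lemma Fam_eq (N : ℕ) (Q : Set ℕ) : Fam N Q = (fam (YQ N Q) : Set (Measure T)) := by
  ext μ
  rw [Finset.mem_coe, mem_fam]
  constructor
  · rintro ⟨h, hN, y, hy, hyQ⟩
    obtain ⟨x, hx, rfl⟩ := classify h
    rw [atoms_U_Orb] at hN
    rw [U_singleton] at hy
    refine ⟨x, mem_YQ.mpr ⟨?_, hx, hN⟩, rfl⟩
    rw [← order_of_mem_Orb hx hy]
    exact hyQ
  · rintro ⟨x, hx, rfl⟩
    obtain ⟨h0, h1, h2⟩ := mem_YQ.mp hx
    exact ⟨erg_U h1, by rw [atoms_U_Orb, h2], x, (U_singleton x).mpr (self_mem_Orb (pos_of_coprime h1)), h0⟩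

/-- Almost all the measures of the question behave as conjectured. -/
theorem result : ∃ H : Set (Measure T),
    (∀ μ : ℕ → Measure T, (∀ n, Erg (μ n) ∧ μ n ∈ H) →
      Tendsto (fun n => atoms (μ n)) atTop atTop →
      ∀ f : C(T, ℝ), Tendsto (fun n => ∫ x, f x ∂(μ n)) atTop (𝓝 (∫ t in (0 : ℝ)..1, f ((t : ℝ) : T)))) ∧
    ∀ (N : ℕ) (Q : Set ℕ), 0 < N → (Fam N Q).Finite ∧
      ((Fam N Q \ H).ncard : ℝ) ≤ 4 * (N : ℝ) ^ (-((1 : ℝ) / 4)) * (Fam N Q).ncard := by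
  refine ⟨G, fun μ h hN f => tendsto_real μ (fun n => (h n).1.prob) (fun n => (h n).2) hN f, ?_⟩
  intro N Q hN
  have h := mostly (fam (YQ N Q)) hN (fun μ hμ => by
      obtain ⟨x, hx, rfl⟩ := mem_fam.mp hμ
      rw [atoms_U_Orb]
      exact (mem_YQ.mp hx).2.2)
    (fun k hk => fam_moment hN YQ_prop (YQ_moment N Q hk))
  rw [Fam_eq]
  exact ⟨h.1, h.2.2.1⟩

end Pool.Agent.Results.MP_715eb0_an.AlmostAllMeasures
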