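import Pool.Agent.Lib.MP_715eb0_an.AW.Final

/-!
# Concentration of `×(2,3)`-orbits and `×(2,3)`-invariant measures at small scales

At every small scale, for every point `x` the points `2^i 3^j x` (`i, j < n`, `n ≥ C log Λ`) in a small ball sit, up
to a proportion `ε`, extremely near one rational point of small order; the same holds for the mass of every
`×2, ×3`-invariant probability measure. Finitely supported ergodic measures with many atoms do not concentrate at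
polynomial scales.
-/

open MeasureTheory

namespace Pool.Agent.Results.MP_715eb0_an.NoConcentration

open Pool.Agent.Lib.MP_715eb0_an

theorem result :
    (∀ (ε : ℝ) (K : ℕ), 0 < ε → ∃ (C : ℕ) (Λ₀ : ℝ), 1 < Λ₀ ∧ ∀ Λ : ℝ, Λ₀ ≤ Λ → ∀ y : T, ∃ t : T,
      0 < addOrderOf t ∧ (addOrderOf t : ℝ) ≤ Λ ^ (1 / 4 : ℝ) ∧
      (0 < addOrderOf y → (addOrderOf y : ℝ) ≤ Λ ^ (1 / 4 : ℝ) → t = y) ∧
      (∀ (x : T) (n : ℕ), C * Real.log Λ ≤ n →
        (Set.ncard {p : ℕ × ℕ | p.1 < n ∧ p.2 < n ∧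
          (2 ^ p.1 * 3 ^ p.2) • x ∈ Metric.closedBall y (1 / Λ) \ Metric.closedBall t (Λ ^ K)⁻¹} : ℝ) ≤
          ε * (n : ℝ) ^ 2) ∧
      ∀ μ : Measure T, IsProbabilityMeasure μ → Measure.map (fun x : T => (2 : ℕ) • x) μ = μ →
        Measure.map (fun x : T => (3 : ℕ) • x) μ = μ →
        μ (Metric.closedBall y (1 / Λ) \ Metric.closedBall t (Λ ^ K)⁻¹) ≤ ENNReal.ofReal ε) ∧
    (∀ ε η : ℝ, 0 < ε → 0 < η → ∃ N₀ : ℕ, ∀ μ : Measure T, Erg μ → N₀ ≤ atoms μ →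
      ∀ x : T, μ {x} ≠ 0 → ∀ y : T,
        μ (Metric.closedBall y ((addOrderOf x : ℝ) ^ (-η))) ≤ ENNReal.ofReal ε) :=
  ⟨AW.main, NC.main⟩

end Pool.Agent.Results.MP_715eb0_an.NoConcentration
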