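import Pool.Agent.Lib.MP_715eb0_an.RO.Final3

/-!
# Reduction of the question to orders `q` whose prime powers are correlated
-/

open MeasureTheory Filter
open scoped Topology

namespace Pool.Agent.Results.MP_715eb0_an.ReducedOrders

open Pool.Agent.Lib.MP_715eb0_an Pool.Agent.Lib.MP_715eb0_an.Orders

/-- `N q` is the number of the residues of `2^i 3^j` modulo `q`.
(1) The question has the answer yes if and only if it has the answer yes, for all `C` and `B`, for the sequences of
measures whose orders `q` satisfy `Reduced C B q`.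
(2) For every `δ > 0` there are `τ > 0` and `P` such that for every measure `μ` of the question, `q` the order of an
atom, and every prime `p ≥ P` with `q = r p`, `p` prime to `r` and `N q ≥ p ^ δ N r`, the `n`-th Fourier
coefficient of `μ` is at most `p ^ (-τ)` if `p` does not divide `n`. -/
theorem result :
    ((∀ μ : ℕ → Measure T, (∀ j, Erg (μ j)) → Tendsto (fun j => atoms (μ j)) atTop atTop → Lim μ) ↔
      ∀ (C : ℝ) (B : ℕ → ℝ) (μ : ℕ → Measure T),
        (∀ j, Erg (μ j) ∧ ∀ x : T, μ j {x} ≠ 0 → Reduced C B (addOrderOf x)) →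
        Tendsto (fun j => atoms (μ j)) atTop atTop → Lim μ) ∧
    (∀ δ : ℝ, 0 < δ → ∃ τ : ℝ, 0 < τ ∧ ∃ P : ℕ, ∀ μ : Measure T, Erg μ →
      ∀ x : T, μ {x} ≠ 0 → ∀ r p : ℕ, p.Prime → P ≤ p → r.Coprime p → r * p = addOrderOf x →
        (p : ℝ) ^ δ * N r ≤ N (addOrderOf x) → ∀ n : ℤ, ¬ ((p : ℤ) ∣ n) →
          ‖∫ t, (fourier n t : ℂ) ∂μ‖ ≤ (p : ℝ) ^ (-τ)) :=
  ⟨reduction, relative⟩

end Pool.Agent.Results.MP_715eb0_an.ReducedOrders
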