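import Pool.Agent.Lib.MP_715eb0_an.SW.Final
import Pool.Agent.Lib.MP_715eb0_an.RZ.Final2

/-!
# Equidistribution of `×(2,3)`-orbits, already in logarithmic time, for most points of short
polynomial progressions about every point of the circle
-/

open MeasureTheory Polynomial Finset

namespace Pool.Agent.Results.MP_715eb0_an.ShortProgressions

open Pool.Agent.Lib.MP_715eb0_an

/-- Let `P` be a nonconstant integral polynomial, `f` continuous, `ε, η > 0`. There is `C` such that for every `x` of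
order `d ≥ C` prime to `6`, every `y` in `ℝ/ℤ` (of finite or infinite order) and every `H ≥ d ^ η`:
(1) for every `n ≥ C log d`, for all but at most `ε H` of the `k < H` the mean of `f` over the points
`2^i 3^j (y + P(k) x)`, `i, j < n`, differs from the Lebesgue mean by at most `ε`;
(2) for all but at most `ε H` of the `k < H` the measure of the question with the atom `y + P(k) x` (if there is one)
integrates `f` up to `ε` like the Lebesgue measure.
(3) In full cosets there is a power saving: for `f` and `ε` there are `c > 0` and `C` such that for every `x` of order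
`d` prime to `6` and every `y` both counts, for `P(k) = k`, `H = d` (and `n ≥ C log d`), are at most
`C d ^ (1 - c)`. -/
theorem result : (∀ (P : ℤ[X]) (f : C(T, ℝ)) (ε η : ℝ), 1 ≤ P.natDegree → 0 < ε → 0 < η → ∃ C : ℕ,
    ∀ x y : T, (addOrderOf x).Coprime 6 → C ≤ addOrderOf x →
      ∀ H : ℕ, (addOrderOf x : ℝ) ^ η ≤ H →
        (∀ n : ℕ, C * Real.log (addOrderOf x) ≤ n →
          (Set.ncard {k : ℕ | k < H ∧
            ε < |(∑ i ∈ range n, ∑ j ∈ range n, f ((2 ^ i * 3 ^ j) • (y + P.eval (k : ℤ) • x))) /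
              (n : ℝ) ^ 2 - ∫ t in (0 : ℝ)..1, f ((t : ℝ) : T)|} : ℝ) ≤ ε * H) ∧
        (Set.ncard {k : ℕ | k < H ∧ ∃ μ : Measure T, Erg μ ∧ μ {y + P.eval (k : ℤ) • x} ≠ 0 ∧
          ε < |∫ t, f t ∂μ - ∫ t in (0 : ℝ)..1, f ((t : ℝ) : T)|} : ℝ) ≤ ε * H) ∧
    (∀ (f : C(T, ℝ)) (ε : ℝ), 0 < ε → ∃ (c : ℝ) (C : ℕ), 0 < c ∧ ∀ x y : T,
      (addOrderOf x).Coprime 6 →
        (∀ n : ℕ, C * Real.log (addOrderOf x) ≤ n →
          (Set.ncard {k : ℕ | k < addOrderOf x ∧
            ε < |(∑ i ∈ range n, ∑ j ∈ range n, f ((2 ^ i * 3 ^ j) • (y + k • x))) /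
              (n : ℝ) ^ 2 - ∫ t in (0 : ℝ)..1, f ((t : ℝ) : T)|} : ℝ) ≤
            C * (addOrderOf x : ℝ) ^ (1 - c)) ∧
        (Set.ncard {k : ℕ | k < addOrderOf x ∧ ∃ μ : Measure T, Erg μ ∧ μ {y + k • x} ≠ 0 ∧
          ε < |∫ t, f t ∂μ - ∫ t in (0 : ℝ)..1, f ((t : ℝ) : T)|} : ℝ) ≤
          C * (addOrderOf x : ℝ) ^ (1 - c)) := by
  refine ⟨?_, RZ.main3⟩
  intro P f ε η hP hε hη
  obtain ⟨C, hC⟩ := SW.main1 P f ε η hP hε hη
  obtain ⟨q₀, hq₀⟩ := SW.main2 P f ε η hP hε hη
  refine ⟨max C q₀, fun x y hx hd H hH => ⟨fun n hn => ?_, ?_⟩⟩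
  · refine hC x y hx ((le_max_left _ _).trans hd) H hH n (le_trans ?_ hn)
    refine mul_le_mul_of_nonneg_right (by exact_mod_cast le_max_left C q₀) ?_
    exact Real.log_natCast_nonneg _
  · exact hq₀ x y hx ((le_max_right _ _).trans hd) H hH

end Pool.Agent.Results.MP_715eb0_an.ShortProgressions
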